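import Mathlib

/-! The deterministic contradiction of the flux argument. -/

set_option autoImplicit false

namespace KS

open Finset

section
variable {Q : Type} [Fintype Q]

open Classical in
/-- number of elements in `[0, u)` -/
noncomputable def gp (z : Q) (S : Q → ℝ) (u : ℝ) : ℝ :=
  ((univ.filter (fun x : Q => x ≠ z ∧ 0 ≤ S x ∧ S x < u)).card : ℝ)

open Classical in
/-- number of elements in `[-u, 0)` -/
noncomputable def gm (z : Q) (S : Q → ℝ) (u : ℝ) : ℝ :=
  ((univ.filter (fun x : Q => x ≠ z ∧ -u ≤ S x ∧ S x < 0)).card : ℝ)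

/-- the counts of both windows of length `u` are within `l` of `u` -/
def goodAt (z : Q) (S : Q → ℝ) (u l : ℝ) : Prop :=
  |gp z S u - u| ≤ l ∧ |gm z S u - u| ≤ l

open Classical in
noncomputable def below (S : Q → ℝ) (u : ℝ) : ℝ := ((univ.filter (fun x : Q => S x < u)).card : ℝ)

theorem below_pos (z : Q) (S : Q → ℝ) (hz : S z = 0) (u : ℝ) (hu : 0 < u) :
    below S u = below S 0 + 1 + gp z S u := by
  classical
  unfold below gp
  have h : univ.filter (fun x : Q => S x < u) =
      (univ.filter (fun x : Q => S x < 0)) ∪ ({z} ∪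
        (univ.filter (fun x : Q => x ≠ z ∧ 0 ≤ S x ∧ S x < u))) := by
    ext x
    simp only [mem_filter, mem_univ, true_and, mem_union, mem_singleton]
    constructor
    · intro hx
      by_cases h0 : S x < 0
      · exact Or.inl h0
      · by_cases hxz : x = z
        · exact Or.inr (Or.inl hxz)
        · exact Or.inr (Or.inr ⟨hxz, not_lt.1 h0, hx⟩)
    · rintro (h | h | h)
      · linarith
      · rw [h, hz]; exact hu
      · exact h.2.2
  rw [h, card_union_of_disjoint, card_union_of_disjoint]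
  · push_cast
    simp
    ring
  · rw [disjoint_singleton_left]
    simp
  · rw [disjoint_left]
    intro x hx hx'
    simp only [mem_filter, mem_univ, true_and, mem_union, mem_singleton] at hx hx'
    rcases hx' with h | h
    · rw [h, hz] at hx
      exact lt_irrefl _ hx
    · linarith [h.2.1]

theorem below_neg (z : Q) (S : Q → ℝ) (hz : S z = 0) (u : ℝ) (hu : 0 < u) :
    below S 0 = below S (-u) + gm z S u := by
  classical
  unfold below gm
  have h : univ.filter (fun x : Q => S x < 0) =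
      (univ.filter (fun x : Q => S x < -u)) ∪
        (univ.filter (fun x : Q => x ≠ z ∧ -u ≤ S x ∧ S x < 0)) := by
    ext x
    simp only [mem_filter, mem_univ, true_and, mem_union]
    constructor
    · intro hx
      by_cases h0 : S x < -u
      · exact Or.inl h0
      · refine Or.inr ⟨?_, not_lt.1 h0, hx⟩
        rintro rfl
        rw [hz] at hx
        exact lt_irrefl _ hx
    · rintro (h | h)
      · linarith
      · exact h.2.2
  rw [h, card_union_of_disjoint]
  · push_cast
    ring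
  · rw [disjoint_left]
    intro x hx hx'
    simp only [mem_filter, mem_univ, true_and] at hx hx'
    linarith [hx'.2.1]

open Classical in
/-- up crossings minus down crossings -/
theorem cross_eq (S T : Q → ℝ) (u : ℝ) :
    ((univ.filter (fun x : Q => S x < u ∧ u ≤ T x)).card : ℝ) =
      below S u - below T u + ((univ.filter (fun x : Q => T x < u ∧ u ≤ S x)).card : ℝ) := by
  unfold below
  have h1 : univ.filter (fun x : Q => S x < u) =
      (univ.filter (fun x : Q => S x < u ∧ u ≤ T x)) ∪ (univ.filter (fun x : Q => S x < u ∧ T x < u)) := by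
    ext x
    simp only [mem_filter, mem_univ, true_and, mem_union]
    constructor
    · intro hx
      rcases le_or_gt u (T x) with h | h
      · exact Or.inl ⟨hx, h⟩
      · exact Or.inr ⟨hx, h⟩
    · rintro (h | h) <;> exact h.1
  have h2 : univ.filter (fun x : Q => T x < u) =
      (univ.filter (fun x : Q => T x < u ∧ u ≤ S x)) ∪ (univ.filter (fun x : Q => S x < u ∧ T x < u)) := by
    ext x
    simp only [mem_filter, mem_univ, true_and, mem_union]
    constructor
    · intro hx
      rcases le_or_gt u (S x) with h | h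
      · exact Or.inl ⟨hx, h⟩
      · exact Or.inr ⟨h, hx⟩
    · rintro (h | h)
      · exact h.1
      · exact h.2
  rw [h1, h2, card_union_of_disjoint, card_union_of_disjoint]
  · push_cast
    ring
  · rw [disjoint_left]
    intro x hx hx'
    simp only [mem_filter, mem_univ, true_and] at hx hx'
    linarith [hx'.1, hx.2]
  · rw [disjoint_left]
    intro x hx hx'
    simp only [mem_filter, mem_univ, true_and] at hx hx'
    linarith [hx'.2, hx.2]

open Classical in
/-- number of elements of `S` in `[u, u + e)` for `u > 0` -/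
theorem window_pos (z : Q) (S : Q → ℝ) (u e l : ℝ) (hu : 0 < u) (he : 0 ≤ e)
    (h1 : goodAt z S u l) (h2 : goodAt z S (u + e) l) (hz : S z = 0) :
    ((univ.filter (fun x : Q => u ≤ S x ∧ S x < u + e)).card : ℝ) ≤ e + 2 * l := by
  have key : ((univ.filter (fun x : Q => u ≤ S x ∧ S x < u + e)).card : ℝ) + gp z S u = gp z S (u + e) := by
    unfold gp
    rw [← Nat.cast_add, ← card_union_of_disjoint]
    · congr 2
      ext x
      simp only [mem_filter, mem_univ, true_and, mem_union]
      constructor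
      · rintro (h | h)
        · refine ⟨?_, by linarith, h.2⟩
          rintro rfl
          linarith [h.1]
        · exact ⟨h.1, h.2.1, by linarith [h.2.2]⟩
      · rintro ⟨h1, h2, h3⟩
        rcases le_or_gt u (S x) with h | h
        · exact Or.inl ⟨h, h3⟩
        · exact Or.inr ⟨h1, h2, h⟩
    · rw [disjoint_left]
      intro x hx hx'
      simp only [mem_filter, mem_univ, true_and] at hx hx'
      linarith [hx'.2.2, hx.1]
  have a1 := abs_le.1 h1.1
  have a2 := abs_le.1 h2.1
  linarith [a1.1, a2.2]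

open Classical in
/-- number of elements of `S` in `[-u, -u + e)` -/
theorem window_neg (z : Q) (S : Q → ℝ) (u e l : ℝ) (he : 0 ≤ e) (hu : e < u)
    (h1 : goodAt z S u l) (h2 : goodAt z S (u - e) l) (hz : S z = 0) :
    ((univ.filter (fun x : Q => -u ≤ S x ∧ S x < -u + e)).card : ℝ) ≤ e + 2 * l := by
  have key : ((univ.filter (fun x : Q => -u ≤ S x ∧ S x < -u + e)).card : ℝ) + gm z S (u - e) = gm z S u := by
    unfold gm
    rw [← Nat.cast_add, ← card_union_of_disjoint]
    · congr 2
      ext x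
      simp only [mem_filter, mem_univ, true_and, mem_union]
      constructor
      · rintro (h | h)
        · refine ⟨?_, h.1, by linarith [h.2]⟩
          rintro rfl
          linarith [h.2]
        · exact ⟨h.1, by linarith [h.2.1], h.2.2⟩
      · rintro ⟨h1, h2, h3⟩
        rcases le_or_gt (-u + e) (S x) with h | h
        · exact Or.inr ⟨h1, by linarith, h3⟩
        · exact Or.inl ⟨h2, h⟩
    · rw [disjoint_left]
      intro x hx hx'
      simp only [mem_filter, mem_univ, true_and] at hx hx'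
      linarith [hx'.2.1, hx.2]
  have a1 := abs_le.1 h1.2
  have a2 := abs_le.1 h2.2
  linarith [a1.2, a2.1]

open Classical in
theorem det_contra (z : Q) (S T : Q → ℝ) (σ c1 c5 h0 R4 lam th θ : ℝ) (J : ℕ)
    (hσ : 0 < σ) (hc1 : 0 < c1) (hh0 : 0 < h0) (hlam : 0 < lam) (hth : 0 < th)
    (e1 : 8 * h0 ≤ θ) (e2 : 16 * h0 ≤ c1) (e3 : 12 * th ≤ h0) (e4 : 200 * c1 ≤ c5)
    (e5 : 400 * lam ≤ c5) (hR4 : 4 ≤ R4) (hc1' : c1 ≤ 1)
    (hJ : (J : ℝ) ≤ R4 / h0 + 4) (hJ' : R4 / h0 + 4 < J + 1)
    (e6 : (2 * J + 1) * (6 * lam + 6 * th) < c5 / 32)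
    (B FD FU FL FR : Finset Q) (hcov : ∀ x, x ∈ B ∨ x ∈ FD ∨ x ∈ FU ∨ x ∈ FL ∨ x ∈ FR)
    (p : Q → ℝ) (n : ℝ) (hSz : S z = 0) (hTz : T z = 0)
    (hSB : ∀ x ∈ B, |S x| ≤ c1 * σ / 8) (hTB : ∀ x ∈ B, |T x| ≤ c1 * σ / 8)
    (hSF : ∀ x, x ∈ FD ∨ x ∈ FU → |S x - p x| ≤ 3 * th * σ)
    (hTF : ∀ x, x ∈ FD ∨ x ∈ FU → p x - 3 * th * σ ≤ T x ∧ T x ≤ p x + 3 * th * σ + h0 * σ)
    (hFD : ∀ x ∈ FD, p x ≤ -(θ * σ)) (hFU : ∀ x ∈ FU, θ * σ ≤ p x)
    (hSL : ∀ x ∈ FL, S x ≤ -(R4 * σ)) (hTL : ∀ x ∈ FL, T x ≤ -(R4 * σ) + h0 * σ)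
    (hSR : ∀ x ∈ FR, R4 * σ ≤ S x) (hTR : ∀ x ∈ FR, R4 * σ ≤ T x)
    (hSn : ((B.filter (fun x => S x < 0)).card : ℝ) ≤ n + lam * σ)
    (hTn : n - lam * σ ≤ ((B.filter (fun x => T x < 0)).card : ℝ))
    (hg1 : ∀ j : ℕ, 1 ≤ j → j ≤ J → goodAt z S (j * (h0 / 2) * σ) (lam * σ) ∧
      goodAt z T (j * (h0 / 2) * σ) (lam * σ))
    (hg2 : ∀ j : ℕ, 1 ≤ j → j ≤ J → goodAt z S (j * (h0 / 2) * σ + 6 * th * σ) (lam * σ))
    (hg2' : ∀ j : ℕ, 1 ≤ j → j ≤ J → c1 * σ / 8 < j * (h0 / 2) * σ →
      goodAt z S (j * (h0 / 2) * σ - 6 * th * σ) (lam * σ))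
    (hg3 : goodAt z S (c1 * σ / 2) (lam * σ))
    (X : Finset Q) (hX : c5 * σ / 16 ≤ (X.card : ℝ))
    (hXF : ∀ x ∈ X, x ∈ FD ∨ x ∈ FU) (hXp : ∀ x ∈ X, |p x| ≤ R4 * σ / 2)
    (hXT : ∀ x ∈ X, p x + h0 * σ - 3 * th * σ ≤ T x) : False := by
  have q1 : 0 < h0 * σ := mul_pos hh0 hσ
  have q2 : 0 < th * σ := mul_pos hth hσ
  have q3 : 0 < lam * σ := mul_pos hlam hσ
  have q4 : 0 < c1 * σ := mul_pos hc1 hσ
  have r1 : 8 * (h0 * σ) ≤ θ * σ := by
    have := mul_le_mul_of_nonneg_right e1 hσ.le
    rwa [mul_assoc] at this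
  have r2 : 16 * (h0 * σ) ≤ c1 * σ := by
    have := mul_le_mul_of_nonneg_right e2 hσ.le
    rwa [mul_assoc] at this
  have r3 : 12 * (th * σ) ≤ h0 * σ := by
    have := mul_le_mul_of_nonneg_right e3 hσ.le
    rwa [mul_assoc] at this
  have r4 : 4 * σ ≤ R4 * σ := mul_le_mul_of_nonneg_right hR4 hσ.le
  have r5 : c1 * σ ≤ σ := by
    have := mul_le_mul_of_nonneg_right hc1' hσ.le
    rwa [one_mul] at this
  -- signs outside `B`
  have sgn : ∀ x, x ∉ B → (S x < 0 ↔ T x < 0) := by
    intro x hxB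
    rcases hcov x with h | h | h | h | h
    · exact absurd h hxB
    · have a1 := abs_le.1 (hSF x (Or.inl h))
      have a2 := hTF x (Or.inl h)
      have a3 := hFD x h
      constructor <;> intro _ <;> linarith [a1.1, a1.2, a2.1, a2.2]
    · have a1 := abs_le.1 (hSF x (Or.inr h))
      have a2 := hTF x (Or.inr h)
      have a3 := hFU x h
      constructor <;> intro _ <;> linarith [a1.1, a1.2, a2.1, a2.2]
    · have a1 := hSL x h
      have a2 := hTL x h
      constructor <;> intro _ <;> linarith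
    · have a1 := hSR x h
      have a2 := hTR x h
      constructor <;> intro _ <;> linarith
  have split0 : ∀ S' : Q → ℝ, below S' 0 = ((B.filter (fun x => S' x < 0)).card : ℝ) +
      ((univ.filter (fun x : Q => x ∉ B ∧ S' x < 0)).card : ℝ) := by
    intro S'
    unfold below
    rw [← Nat.cast_add, ← card_union_of_disjoint]
    · congr 2
      ext x
      simp only [mem_filter, mem_univ, true_and, mem_union]
      tauto
    · rw [disjoint_left]
      intro x hx hx'
      simp only [mem_filter, mem_univ, true_and] at hx hx'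
      exact hx'.1 hx.1
  have D0 : below S 0 - below T 0 ≤ 2 * (lam * σ) := by
    have : (univ.filter (fun x : Q => x ∉ B ∧ S x < 0)) = (univ.filter (fun x : Q => x ∉ B ∧ T x < 0)) := by
      ext x
      simp only [mem_filter, mem_univ, true_and]
      constructor
      · rintro ⟨h1, h2⟩
        exact ⟨h1, (sgn x h1).1 h2⟩
      · rintro ⟨h1, h2⟩
        exact ⟨h1, (sgn x h1).2 h2⟩
    rw [split0 S, split0 T, this]
    linarith
  -- levels
  let s : ℝ := h0 / 2 * σ
  have hs : 0 < s := by positivity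
  have hsdef : s = h0 / 2 * σ := rfl
  let G0 : Finset ℤ := (Finset.Icc (-(J : ℤ)) J).filter (fun j => c1 * σ / 8 < |(j : ℝ) * s|)
  have hlev : ∀ j : ℕ, j ≤ J → (j : ℝ) * s ≤ R4 * σ / 2 + 2 * (h0 * σ) := by
    intro j hj
    have : (j : ℝ) ≤ R4 / h0 + 4 := le_trans (by exact_mod_cast hj) hJ
    calc (j : ℝ) * s ≤ (R4 / h0 + 4) * s := by gcongr
      _ = R4 * σ / 2 + 2 * (h0 * σ) := by
        rw [hsdef]; field_simp; ring
  -- bound for each level
  have main : ∀ j ∈ G0, ((univ.filter (fun x : Q => S x < (j : ℝ) * s ∧ (j : ℝ) * s ≤ T x)).card : ℝ) ≤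
      6 * (lam * σ) + 6 * (th * σ) := by
    intro j hj
    rw [Finset.mem_filter, Finset.mem_Icc] at hj
    obtain ⟨⟨hj1, hj2⟩, hj3⟩ := hj
    rw [cross_eq S T ((j : ℝ) * s)]
    rcases lt_trichotomy j 0 with hneg | h0' | hpos
    · -- negative level
      obtain ⟨k, hk⟩ : ∃ k : ℕ, j = -(k : ℤ) := ⟨j.natAbs, by omega⟩
      have hk1 : 1 ≤ k := by omega
      have hkJ : k ≤ J := by omega
      have hjs : (j : ℝ) * s = -((k : ℝ) * s) := by rw [hk]; push_cast; ring
      have hks : 0 < (k : ℝ) * s := by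
        have : (0 : ℝ) < k := by exact_mod_cast hk1
        positivity
      rw [hjs, abs_neg, abs_of_pos hks] at hj3
      rw [hjs]
      have hkl := hlev k hkJ
      have ek : (k : ℝ) * (h0 / 2) * σ = (k : ℝ) * s := by rw [hsdef]; ring
      have g1 := hg1 k hk1 hkJ
      have g2 := hg2' k hk1 hkJ (by rw [ek]; exact hj3)
      rw [ek] at g1 g2
      have b1 := below_neg z S hSz _ hks
      have b2 := below_neg z T hTz _ hks
      have g1S := abs_le.1 g1.1.2
      have g1T := abs_le.1 g1.2.2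
      have win := window_neg z S ((k : ℝ) * s) (6 * th * σ) (lam * σ) (by linarith) (by linarith) g1.1 g2 hSz
      have sub : (univ.filter (fun x : Q => T x < -((k : ℝ) * s) ∧ -((k : ℝ) * s) ≤ S x)) ⊆
          (univ.filter (fun x : Q => -((k : ℝ) * s) ≤ S x ∧ S x < -((k : ℝ) * s) + 6 * th * σ)) := by
        intro x hx
        simp only [mem_filter, mem_univ, true_and] at hx ⊢
        refine ⟨hx.2, ?_⟩
        rcases hcov x with h | h | h | h | h
        · have a2 := abs_le.1 (hTB x h)
          linarith [a2.1, hx.1]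
        · have a1 := abs_le.1 (hSF x (Or.inl h))
          have a2 := hTF x (Or.inl h)
          linarith [a1.2, a2.1, hx.1]
        · have a1 := abs_le.1 (hSF x (Or.inr h))
          have a2 := hTF x (Or.inr h)
          linarith [a1.2, a2.1, hx.1]
        · have a1 := hSL x h
          linarith [hx.2]
        · have a2 := hTR x h
          linarith [hx.1]
      have cle : ((univ.filter (fun x : Q => T x < -((k : ℝ) * s) ∧ -((k : ℝ) * s) ≤ S x)).card : ℝ) ≤
          ((univ.filter (fun x : Q => -((k : ℝ) * s) ≤ S x ∧ S x < -((k : ℝ) * s) + 6 * th * σ)).card : ℝ) := by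
        exact_mod_cast card_le_card sub
      linarith [g1S.1, g1S.2, g1T.1, g1T.2]
    · rw [h0'] at hj3
      simp only [Int.cast_zero, zero_mul, abs_zero] at hj3
      linarith
    · obtain ⟨k, hk⟩ : ∃ k : ℕ, j = (k : ℤ) := ⟨j.natAbs, by omega⟩
      have hk1 : 1 ≤ k := by omega
      have hkJ : k ≤ J := by omega
      have hjs : (j : ℝ) * s = (k : ℝ) * s := by rw [hk]; push_cast; ring
      have hks : 0 < (k : ℝ) * s := by
        have : (0 : ℝ) < k := by exact_mod_cast hk1
        positivity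
      rw [hjs, abs_of_pos hks] at hj3
      rw [hjs]
      have hkl := hlev k hkJ
      have ek : (k : ℝ) * (h0 / 2) * σ = (k : ℝ) * s := by rw [hsdef]; ring
      have g1 := hg1 k hk1 hkJ
      have g2 := hg2 k hk1 hkJ
      rw [ek] at g1 g2
      have b1 := below_pos z S hSz _ hks
      have b2 := below_pos z T hTz _ hks
      have g1S := abs_le.1 g1.1.1
      have g1T := abs_le.1 g1.2.1
      have win := window_pos z S ((k : ℝ) * s) (6 * th * σ) (lam * σ) hks (by linarith) g1.1 g2 hSz
      have sub : (univ.filter (fun x : Q => T x < ((k : ℝ) * s) ∧ ((k : ℝ) * s) ≤ S x)) ⊆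
          (univ.filter (fun x : Q => ((k : ℝ) * s) ≤ S x ∧ S x < ((k : ℝ) * s) + 6 * th * σ)) := by
        intro x hx
        simp only [mem_filter, mem_univ, true_and] at hx ⊢
        refine ⟨hx.2, ?_⟩
        rcases hcov x with h | h | h | h | h
        · have a2 := abs_le.1 (hSB x h)
          linarith [a2.2, hx.2]
        · have a1 := abs_le.1 (hSF x (Or.inl h))
          have a2 := hTF x (Or.inl h)
          linarith [a1.2, a2.1, hx.1]
        · have a1 := abs_le.1 (hSF x (Or.inr h))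
          have a2 := hTF x (Or.inr h)
          linarith [a1.2, a2.1, hx.1]
        · have a1 := hSL x h
          linarith [hx.2]
        · have a2 := hTR x h
          linarith [hx.1]
      have cle : ((univ.filter (fun x : Q => T x < ((k : ℝ) * s) ∧ ((k : ℝ) * s) ≤ S x)).card : ℝ) ≤
          ((univ.filter (fun x : Q => ((k : ℝ) * s) ≤ S x ∧ S x < ((k : ℝ) * s) + 6 * th * σ)).card : ℝ) := by
        exact_mod_cast card_le_card sub
      linarith [g1S.1, g1S.2, g1T.1, g1T.2]
  -- the elements of `X` far from zero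
  have subX : X.filter (fun x => c1 * σ / 4 < |p x|) ⊆
      G0.biUnion (fun j => univ.filter (fun x : Q => S x < (j : ℝ) * s ∧ (j : ℝ) * s ≤ T x)) := by
    intro x hx
    rw [Finset.mem_filter] at hx
    obtain ⟨hxX, hxp⟩ := hx
    have a1 := abs_le.1 (hSF x (hXF x hxX))
    have a2 := hTF x (hXF x hxX)
    have a3 := hXT x hxX
    have a4 := abs_le.1 (hXp x hxX)
    have hfl1 : (⌊T x / s⌋ : ℝ) * s ≤ T x := by
      have := Int.floor_le (T x / s)
      calc (⌊T x / s⌋ : ℝ) * s ≤ T x / s * s := by gcongr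
        _ = T x := by field_simp
    have hfl2 : T x - s < (⌊T x / s⌋ : ℝ) * s := by
      have h := Int.lt_floor_add_one (T x / s)
      have h' : T x / s * s < (⌊T x / s⌋ + 1 : ℝ) * s := by gcongr
      have h'' : T x / s * s = T x := by field_simp
      rw [h''] at h'
      linarith
    have hs2 : s = h0 * σ / 2 := by rw [hsdef]; ring
    have hfl3 : S x < (⌊T x / s⌋ : ℝ) * s := by linarith [a1.2]
    rw [Finset.mem_biUnion]
    refine ⟨⌊T x / s⌋, ?_, ?_⟩
    · have up : (⌊T x / s⌋ : ℝ) * s ≤ R4 * σ / 2 + 2 * (h0 * σ) := by linarith [a2.2, a4.2]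
      have lo : -(R4 * σ / 2 + 2 * (h0 * σ)) ≤ (⌊T x / s⌋ : ℝ) * s := by linarith [a1.1, a4.1]
      have cv : R4 * σ / 2 + 2 * (h0 * σ) = (R4 / h0 + 4) * s := by
        rw [hsdef]; field_simp; ring
      have lt1 : (⌊T x / s⌋ : ℝ) < J + 1 := by
        have : (⌊T x / s⌋ : ℝ) * s ≤ (R4 / h0 + 4) * s := by rw [← cv]; exact up
        exact lt_of_le_of_lt (le_of_mul_le_mul_right this hs) hJ'
      have lt2 : -((J : ℝ) + 1) < (⌊T x / s⌋ : ℝ) := by
        have : -(R4 / h0 + 4) * s ≤ (⌊T x / s⌋ : ℝ) * s := by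
          rw [neg_mul, ← cv]; exact lo
        have := le_of_mul_le_mul_right this hs
        linarith
      have i1 : ⌊T x / s⌋ < (J : ℤ) + 1 := by exact_mod_cast lt1
      have i2 : -((J : ℤ) + 1) < ⌊T x / s⌋ := by exact_mod_cast lt2
      rw [Finset.mem_filter, Finset.mem_Icc]
      refine ⟨⟨by omega, by omega⟩, ?_⟩
      rcases lt_abs.1 hxp with h | h
      · exact lt_abs.2 (Or.inl (by linarith [a1.1]))
      · exact lt_abs.2 (Or.inr (by linarith [a2.2]))
    · simp only [mem_filter, mem_univ, true_and]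
      exact ⟨hfl3, hfl1⟩
  have cardX1 : ((X.filter (fun x => c1 * σ / 4 < |p x|)).card : ℝ) ≤
      (2 * J + 1) * (6 * (lam * σ) + 6 * (th * σ)) := by
    have c1' : ((X.filter (fun x => c1 * σ / 4 < |p x|)).card : ℝ) ≤
        ∑ j ∈ G0, ((univ.filter (fun x : Q => S x < (j : ℝ) * s ∧ (j : ℝ) * s ≤ T x)).card : ℝ) := by
      have := (card_le_card subX).trans card_biUnion_le
      exact_mod_cast this
    refine c1'.trans ((Finset.sum_le_card_nsmul _ _ _ main).trans ?_)
    rw [nsmul_eq_mul]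
    have hcard : (G0.card : ℝ) ≤ 2 * J + 1 := by
      have h1 : G0.card ≤ (Finset.Icc (-(J : ℤ)) J).card := card_filter_le _ _
      have h2 : (Finset.Icc (-(J : ℤ)) J).card = 2 * J + 1 := by
        rw [Int.card_Icc]; omega
      rw [h2] at h1
      exact_mod_cast h1
    gcongr
  have cardX2 : ((X.filter (fun x => ¬ c1 * σ / 4 < |p x|)).card : ℝ) ≤ c1 * σ + 2 * (lam * σ) := by
    have sub2 : X.filter (fun x => ¬ c1 * σ / 4 < |p x|) ⊆
        (univ.filter (fun x : Q => x ≠ z ∧ 0 ≤ S x ∧ S x < c1 * σ / 2)) ∪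
        (univ.filter (fun x : Q => x ≠ z ∧ -(c1 * σ / 2) ≤ S x ∧ S x < 0)) := by
      intro x hx
      rw [Finset.mem_filter] at hx
      obtain ⟨hxX, hxp⟩ := hx
      have a1 := abs_le.1 (hSF x (hXF x hxX))
      have a4 := abs_le.1 (not_lt.1 hxp)
      have hxz : x ≠ z := by
        rintro rfl
        rw [hSz] at a1
        rcases hXF x hxX with h | h
        · linarith [hFD x h, a1.1]
        · linarith [hFU x h, a1.2]
      simp only [mem_filter, mem_univ, true_and, mem_union]
      rcases le_or_gt 0 (S x) with h | h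
      · exact Or.inl ⟨hxz, h, by linarith [a1.2, a4.2]⟩
      · exact Or.inr ⟨hxz, by linarith [a1.1, a4.1], h⟩
    have h1 := (card_le_card sub2).trans (card_union_le _ _)
    have h2 : ((X.filter (fun x => ¬ c1 * σ / 4 < |p x|)).card : ℝ) ≤
        gp z S (c1 * σ / 2) + gm z S (c1 * σ / 2) := by
      unfold gp gm
      exact_mod_cast h1
    have g1 := abs_le.1 hg3.1
    have g2 := abs_le.1 hg3.2
    linarith [g1.2, g2.2]
  have total : ((X.filter (fun x => c1 * σ / 4 < |p x|)).card : ℝ) +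
      ((X.filter (fun x => ¬ c1 * σ / 4 < |p x|)).card : ℝ) = (X.card : ℝ) := by
    exact_mod_cast Finset.card_filter_add_card_filter_not (s := X) (fun x => c1 * σ / 4 < |p x|)
  have e6' : (2 * J + 1) * (6 * (lam * σ) + 6 * (th * σ)) < c5 / 32 * σ := by
    have := mul_lt_mul_of_pos_right e6 hσ
    calc (2 * J + 1) * (6 * (lam * σ) + 6 * (th * σ)) = (2 * J + 1) * (6 * lam + 6 * th) * σ := by ring
      _ < c5 / 32 * σ := this
  have e4' : 200 * (c1 * σ) ≤ c5 * σ := by
    have := mul_le_mul_of_nonneg_right e4 hσ.le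
    rw [mul_assoc] at this
    exact this
  have e5' : 400 * (lam * σ) ≤ c5 * σ := by
    have := mul_le_mul_of_nonneg_right e5 hσ.le
    rw [mul_assoc] at this
    exact this
  have e7 : c5 * σ / 16 ≤ (2 * J + 1) * (6 * (lam * σ) + 6 * (th * σ)) + (c1 * σ + 2 * (lam * σ)) :=
    hX.trans (total ▸ add_le_add cardX1 cardX2)
  have e8 : c5 / 32 * σ = c5 * σ / 32 := by ring
  have e9 : 0 < c5 * σ := lt_of_lt_of_le (by positivity) e4'
  linarith only [e4', e5', e6', e7, e8, e9]

end

end KS
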