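import Pool.Agent.Lib.MP_c534e4_co.Basic
import Pool.Agent.Lib.MP_c534e4_co.H26.Det

/-! The shift argument: from the event `A` to the deterministic contradiction. -/

set_option autoImplicit false

namespace KS

open MeasureTheory Set

open Classical in
theorem measurable_cardFilter {Ω ι : Type} [MeasurableSpace Ω] (X : Finset ι) (P : ι → Ω → Prop)
    (hP : ∀ x, MeasurableSet {ω | P x ω}) :
    Measurable (fun ω => ((X.filter (fun x => P x ω)).card : ℝ)) := by
  have : (fun ω => ((X.filter (fun x => P x ω)).card : ℝ)) =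
      fun ω => ∑ x ∈ X, if P x ω then (1 : ℝ) else 0 := by
    funext ω
    rw [Finset.card_filter]
    push_cast
    rfl
  rw [this]
  exact Finset.measurable_sum _ (fun x _ => Measurable.ite (hP x) measurable_const measurable_const)

open Classical in
theorem rev_markov {Ω ι : Type} [MeasurableSpace Ω] (P : Measure Ω) [IsProbabilityMeasure P]
    (X : Finset ι) (E : ι → Set Ω) (hE : ∀ i, MeasurableSet (E i))
    (hp : ∀ i ∈ X, 3 / 8 ≤ P.real (E i)) (hX : 0 < (X.card : ℝ)) :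
    1 / 4 ≤ P.real {ω | (X.card : ℝ) / 8 ≤ ((X.filter (fun i => ω ∈ E i)).card : ℝ)} := by
  set G : Set Ω := {ω | (X.card : ℝ) / 8 ≤ ((X.filter (fun i => ω ∈ E i)).card : ℝ)} with hG
  have hGm : MeasurableSet G :=
    measurableSet_le measurable_const (measurable_cardFilter X (fun i ω => ω ∈ E i) (fun i => hE i))
  have e1 : ∫ ω, (∑ i ∈ X, (E i).indicator (fun _ => (1 : ℝ)) ω) ∂P = ∑ i ∈ X, P.real (E i) := by
    rw [integral_finset_sum]
    · refine Finset.sum_congr rfl (fun i _ => ?_)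
      rw [integral_indicator_const _ (hE i)]
      simp
    · intro i _
      exact (integrable_const (1 : ℝ)).indicator (hE i)
  have e2 : ∫ ω, (∑ i ∈ X, (E i).indicator (fun _ => (1 : ℝ)) ω) ∂P ≤
      ∫ ω, (G.indicator (fun _ => (X.card : ℝ)) ω + (X.card : ℝ) / 8) ∂P := by
    refine integral_mono ?_ ?_ ?_
    · exact integrable_finset_sum _ (fun i _ => (integrable_const (1 : ℝ)).indicator (hE i))
    · exact ((integrable_const _).indicator hGm).add (integrable_const _)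
    · intro ω
      have hs : (∑ i ∈ X, (E i).indicator (fun _ => (1 : ℝ)) ω) = ((X.filter (fun i => ω ∈ E i)).card : ℝ) := by
        rw [Finset.card_filter]
        push_cast
        refine Finset.sum_congr rfl (fun i _ => ?_)
        by_cases h : ω ∈ E i <;> simp [h]
      simp only [hs]
      by_cases h : ω ∈ G
      · simp only [Set.indicator_of_mem h]
        have : ((X.filter (fun i => ω ∈ E i)).card : ℝ) ≤ (X.card : ℝ) := by
          exact_mod_cast Finset.card_filter_le _ _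
        linarith
      · simp only [Set.indicator_of_notMem h]
        have : ¬ ((X.card : ℝ) / 8 ≤ ((X.filter (fun i => ω ∈ E i)).card : ℝ)) := h
        linarith
  rw [e1, integral_add ((integrable_const _).indicator hGm) (integrable_const _),
    integral_indicator_const _ hGm, integral_const] at e2
  have e3 : (X.card : ℝ) * (3 / 8) ≤ ∑ i ∈ X, P.real (E i) := by
    have := Finset.card_nsmul_le_sum X (fun i => P.real (E i)) (3 / 8) hp
    rwa [nsmul_eq_mul] at this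
  simp only [smul_eq_mul, probReal_univ, one_mul] at e2
  have e4 : (X.card : ℝ) * (1 / 4) ≤ (X.card : ℝ) * P.real G := by linarith
  exact le_of_mul_le_mul_left e4 hX

theorem goodAt_prob {Q : Type} [Fintype Q] {μ : Measure (Q → ℝ)} (z : Q) (K u l : ℝ) (hd : Deep μ z K)
    [IsProbabilityMeasure μ] (hu : 0 ≤ u) (hl : 2 ≤ l) (hK : u + l ≤ K) :
    μ.real {S | ¬ goodAt z (pin z 0 S) u l} ≤ 4 * (8 * (u + l) / l ^ 2) := by
  classical
  have hpin : ∀ S : Q → ℝ, ∀ x, pin z 0 S x = D x z S := by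
    intro S x; simp [pin, D]
  have b1 : ∀ S : Q → ℝ, gp z (pin z 0 S) u ≤ (cnt z (fun t => 0 ≤ t ∧ t ≤ u) S : ℝ) := by
    intro S
    unfold gp cnt
    refine Nat.cast_le.2 (Finset.card_le_card ?_)
    intro x hx
    simp only [Finset.mem_filter, Finset.mem_univ, true_and, hpin] at hx ⊢
    exact ⟨hx.1, hx.2.1, hx.2.2.le⟩
  have b2 : ∀ S : Q → ℝ, (cnt z (fun t => 0 < t ∧ t < u) S : ℝ) ≤ gp z (pin z 0 S) u := by
    intro S
    unfold gp cnt
    refine Nat.cast_le.2 (Finset.card_le_card ?_)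
    intro x hx
    simp only [Finset.mem_filter, Finset.mem_univ, true_and, hpin] at hx ⊢
    exact ⟨hx.1, hx.2.1.le, hx.2.2⟩
  have b3 : ∀ S : Q → ℝ, gm z (pin z 0 S) u ≤ (cnt z (fun t => -u ≤ t ∧ t ≤ 0) S : ℝ) := by
    intro S
    unfold gm cnt
    refine Nat.cast_le.2 (Finset.card_le_card ?_)
    intro x hx
    simp only [Finset.mem_filter, Finset.mem_univ, true_and, hpin] at hx ⊢
    exact ⟨hx.1, hx.2.1, hx.2.2.le⟩
  have b4 : ∀ S : Q → ℝ, (cnt z (fun t => -u < t ∧ t < 0) S : ℝ) ≤ gm z (pin z 0 S) u := by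
    intro S
    unfold gm cnt
    refine Nat.cast_le.2 (Finset.card_le_card ?_)
    intro x hx
    simp only [Finset.mem_filter, Finset.mem_univ, true_and, hpin] at hx ⊢
    exact ⟨hx.1, hx.2.1.le, hx.2.2⟩
  have sub : {S | ¬ goodAt z (pin z 0 S) u l} ⊆
      ({S | u + l < (cnt z (fun t => 0 ≤ t ∧ t ≤ u) S : ℝ)} ∪
        {S | (cnt z (fun t => 0 < t ∧ t < u) S : ℝ) < u - l}) ∪
      ({S | u + l < (cnt z (fun t => -u ≤ t ∧ t ≤ 0) S : ℝ)} ∪
        {S | (cnt z (fun t => -u < t ∧ t < 0) S : ℝ) < u - l}) := by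
    intro S hS
    simp only [mem_setOf_eq, goodAt, not_and_or, not_le, mem_union] at hS ⊢
    rcases hS with h | h
    · rcases lt_abs.1 h with h | h
      · exact Or.inl (Or.inl (by linarith [b1 S]))
      · exact Or.inl (Or.inr (by linarith [b2 S]))
    · rcases lt_abs.1 h with h | h
      · exact Or.inr (Or.inl (by linarith [b3 S]))
      · exact Or.inr (Or.inr (by linarith [b4 S]))
  refine (measureReal_mono sub).trans ?_
  refine (measureReal_union_le _ _).trans ?_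
  refine (add_le_add (measureReal_union_le _ _) (measureReal_union_le _ _)).trans ?_
  linarith [hd.up_le u l hu hl hK, hd.up_ge u l hu hl hK, hd.dn_le u l hu hl hK, hd.dn_ge u l hu hl hK]

theorem exists_of_measure {Ω : Type} [MeasurableSpace Ω] (P : Measure Ω) [IsProbabilityMeasure P]
    (E F : Set Ω) (h : P.real F < P.real E) : ∃ ω ∈ E, ω ∉ F := by
  by_contra hcon
  push Not at hcon
  have : P.real E ≤ P.real F := measureReal_mono hcon
  linarith

open Classical in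
theorem flux (c1 c5 h0 R4 lam th θ a : ℝ) (J : ℕ)
    (hc1 : 0 < c1) (hh0 : 0 < h0) (hlam : 0 < lam) (hth : 0 < th) (ha : 0 < a)
    (e1 : 8 * h0 ≤ θ) (e2 : 16 * h0 ≤ c1) (e3 : 12 * th ≤ h0) (e4 : 200 * c1 ≤ c5)
    (e5 : 400 * lam ≤ c5) (hR4 : 4 ≤ R4) (hc1' : c1 ≤ 1) (hlam1 : lam ≤ 1)
    (hJ : (J : ℝ) ≤ R4 / h0 + 4) (hJ' : R4 / h0 + 4 < J + 1)
    (e6 : (2 * J + 1) * (6 * lam + 6 * th) < c5 / 32) :
    ∃ L : ℝ, ∀ {Q : Type} [Fintype Q] (μ : Measure (Q → ℝ)), IsKS μ → ∀ σ : ℝ, L ≤ σ → ∀ z : Q,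
    Deep μ z ((R4 + 4) * σ) → ∀ (B FD FU FL FR : Finset Q),
    (∀ x, x ∈ B ∨ x ∈ FD ∨ x ∈ FU ∨ x ∈ FL ∨ x ∈ FR) → ∀ (A : Set (Q → ℝ)) (p : Q → ℝ) (n : ℝ),
    MeasurableSet A → a ≤ μ.real {S | pin z 0 S ∈ A} →
    (∀ S ∈ A, (∀ x ∈ B, |S x| ≤ c1 * σ / 8) ∧
        (∀ x, x ∈ FD ∨ x ∈ FU → |S x - p x| ≤ 3 * th * σ) ∧
        (∀ x ∈ FL, S x ≤ -(R4 * σ)) ∧ (∀ x ∈ FR, R4 * σ ≤ S x) ∧
        |((B.filter (fun x : Q => S x < 0)).card : ℝ) - n| ≤ lam * σ) →
    (∀ x ∈ FD, p x ≤ -(θ * σ)) → (∀ x ∈ FU, θ * σ ≤ p x) →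
    μ.real {S | ∃ x ∈ B, c1 * σ / 8 < |D x z S|} ≤ 1 / 64 →
    ∀ X : Finset Q, c5 * σ / 2 ≤ X.card → (∀ x ∈ X, x ∈ FD ∨ x ∈ FU) →
    (∀ x ∈ X, |p x| ≤ R4 * σ / 2) →
    (∀ x ∈ X, 3 / 8 ≤ μ.real {S | p x + c1 * σ ≤ D x z S}) → False := by
  -- the grid
  set Gr : Finset ℝ := (((Finset.range (J + 1)).image (fun j : ℕ => (j : ℝ) * (h0 / 2))) ∪
    ((Finset.range (J + 1)).image (fun j : ℕ => (j : ℝ) * (h0 / 2) + 6 * th)) ∪
    ((Finset.range (J + 1)).image (fun j : ℕ => (j : ℝ) * (h0 / 2) - 6 * th)) ∪ {c1 / 2}).filter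
      (fun v => 0 ≤ v ∧ v ≤ R4 + 3) with hGr
  have hc5 : 0 < c5 := by linarith
  refine ⟨2 / lam + (Gr.card : ℝ) * 256 * (R4 + 4) / (lam ^ 2 * a ^ 2) + 1, ?_⟩
  intro Q _ μ hμ σ hL z hdeep B FD FU FL FR hcov A p n hAm hAa hA hFD hFU hsup X hX hXF hXp hXprob
  haveI := hμ.prob
  have hR40 : 0 < R4 + 4 := by linarith
  have t1 : 0 ≤ (Gr.card : ℝ) * 256 * (R4 + 4) / (lam ^ 2 * a ^ 2) := by positivity
  have t2 : 0 < 2 / lam := by positivity
  have hσ1 : 1 ≤ σ := by linarith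
  have hσ : 0 < σ := by linarith
  have hσ2 : 2 ≤ lam * σ := by
    have : 2 / lam ≤ σ := by linarith
    rw [div_le_iff₀ hlam] at this
    linarith
  have ha1 : a ≤ 1 := hAa.trans measureReal_le_one
  have hpin0 : ∀ (S : Q → ℝ) (x : Q), pin z 0 S x = D x z S := by
    intro S x; simp [pin, D]
  have mp : ∀ c : ℝ, Measurable (pin z c : (Q → ℝ) → (Q → ℝ)) := fun c => measurable_pin z c
  have mev : ∀ x : Q, Measurable (fun S : Q → ℝ => S x) := fun x => measurable_pi_apply x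
  -- the good event
  have hbadv : ∀ v ∈ Gr, μ.real {S | ¬ goodAt z (pin z 0 S) (v * σ) (lam * σ)} ≤
      32 * (R4 + 4) / (lam ^ 2 * σ) := by
    intro v hv
    rw [hGr, Finset.mem_filter] at hv
    have h1 : v * σ + lam * σ ≤ (R4 + 4) * σ := by nlinarith [hv.2.2]
    refine (goodAt_prob z _ _ _ hdeep (mul_nonneg hv.2.1 hσ.le) hσ2 h1).trans ?_
    have h2 : 8 * (v * σ + lam * σ) / (lam * σ) ^ 2 ≤ 8 * ((R4 + 4) * σ) / (lam * σ) ^ 2 := by
      gcongr
    have h3 : 4 * (8 * ((R4 + 4) * σ) / (lam * σ) ^ 2) = 32 * (R4 + 4) / (lam ^ 2 * σ) := by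
      field_simp
      ring
    linarith
  have hbad : μ.real {S | ∃ v ∈ Gr, ¬ goodAt z (pin z 0 S) (v * σ) (lam * σ)} < a ^ 2 / 8 := by
    have h1 : μ.real {S | ∃ v ∈ Gr, ¬ goodAt z (pin z 0 S) (v * σ) (lam * σ)} ≤
        (Gr.card : ℝ) * (32 * (R4 + 4) / (lam ^ 2 * σ)) := by
      have e : {S : Q → ℝ | ∃ v ∈ Gr, ¬ goodAt z (pin z 0 S) (v * σ) (lam * σ)} =
          ⋃ v ∈ Gr, {S | ¬ goodAt z (pin z 0 S) (v * σ) (lam * σ)} := by
        ext S; simp
      rw [e]
      refine (measureReal_biUnion_finset_le _ _).trans ?_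
      refine (Finset.sum_le_card_nsmul _ _ _ hbadv).trans ?_
      rw [nsmul_eq_mul]
    refine h1.trans_lt ?_
    have h2 : (Gr.card : ℝ) * 256 * (R4 + 4) / (lam ^ 2 * a ^ 2) < σ := by linarith
    rw [div_lt_iff₀ (by positivity)] at h2
    have h3 : (Gr.card : ℝ) * (32 * (R4 + 4) / (lam ^ 2 * σ)) =
        ((Gr.card : ℝ) * 256 * (R4 + 4)) / (8 * (lam ^ 2 * σ)) := by
      field_simp
      ring
    rw [h3, div_lt_div_iff₀ (by positivity) (by norm_num)]
    nlinarith
  -- the event `A'`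
  set Xc : ℝ := (X.card : ℝ) with hXc
  have hXc0 : 0 < Xc := lt_of_lt_of_le (by positivity) hX
  set c : ℝ := c1 * σ / 2 with hc
  set hh : ℝ := h0 * σ with hhh
  have q1 : 0 < h0 * σ := mul_pos hh0 hσ
  have q2 : 0 < th * σ := mul_pos hth hσ
  have q4 : 0 < c1 * σ := mul_pos hc1 hσ
  have r2 : 16 * (h0 * σ) ≤ c1 * σ := by
    have := mul_le_mul_of_nonneg_right e2 hσ.le
    rwa [mul_assoc] at this
  have r3 : 12 * (th * σ) ≤ h0 * σ := by
    have := mul_le_mul_of_nonneg_right e3 hσ.le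
    rwa [mul_assoc] at this
  let A' : Set (Q → ℝ) := {S | (∀ x ∈ B, |S x| ≤ c1 * σ / 8) ∧
    Xc / 8 ≤ ((X.filter (fun x => p x + c1 * σ ≤ S x)).card : ℝ)}
  have mB : MeasurableSet {S : Q → ℝ | ∀ x ∈ B, |S x| ≤ c1 * σ / 8} := by
    have : {S : Q → ℝ | ∀ x ∈ B, |S x| ≤ c1 * σ / 8} = ⋂ x ∈ B, {S | |S x| ≤ c1 * σ / 8} := by
      ext S; simp
    rw [this]
    exact Finset.measurableSet_biInter _ (fun x _ => measurableSet_le (mev x).abs measurable_const)
  have mCard : ∀ t : ℝ, MeasurableSet {S : Q → ℝ | Xc / 8 ≤ ((X.filter (fun x => p x + t ≤ S x)).card : ℝ)} := by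
    intro t
    exact measurableSet_le measurable_const (measurable_cardFilter X (fun x (S : Q → ℝ) => p x + t ≤ S x)
      (fun x => measurableSet_le measurable_const (mev x)))
  have mA' : MeasurableSet A' := mB.inter (mCard _)
  have hA'prob : 1 / 8 ≤ μ.real {S | pin z 0 S ∈ A'} := by
    have h1 := rev_markov μ X (fun x => {S | p x + c1 * σ ≤ D x z S})
      (fun x => measurableSet_le measurable_const (measurable_D x z)) hXprob hXc0
    have h2 : {S : Q → ℝ | (X.card : ℝ) / 8 ≤ ((X.filter (fun i => S ∈ {S | p i + c1 * σ ≤ D i z S})).card : ℝ)} ⊆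
        {S | pin z 0 S ∈ A'} ∪ {S | ∃ x ∈ B, c1 * σ / 8 < |D x z S|} := by
      intro S hS
      by_cases hB : ∃ x ∈ B, c1 * σ / 8 < |D x z S|
      · exact Or.inr hB
      · push Not at hB
        refine Or.inl ⟨?_, ?_⟩
        · intro x hx
          rw [hpin0]
          exact hB x hx
        · simp only [hpin0]
          exact hS
    have h3 := (measureReal_mono h2).trans (measureReal_union_le (μ := μ) _ _)
    linarith
  -- first shift
  let A1 : Set (Q → ℝ) := {S | (fun x => S x + c) ∈ A'}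
  have mA1 : MeasurableSet A1 :=
    (measurable_pi_lambda _ (fun x => (mev x).add_const c)) mA'
  let E1 : Set (Q → ℝ) := {S | (∀ x ∈ FD ∪ FU, p x - 3 * th * σ ≤ S x) ∧
    (∀ x ∈ B, |S x| ≤ c1 * σ / 8) ∧ n - lam * σ ≤ ((B.filter (fun x => S x < 0)).card : ℝ) ∧
    Xc / 8 ≤ ((X.filter (fun x => p x + c1 * σ / 2 ≤ S x)).card : ℝ) ∧ (∀ x ∈ FR, R4 * σ ≤ S x)}
  have mle : ∀ (F : Finset Q) (f : Q → ℝ), MeasurableSet {S : Q → ℝ | ∀ x ∈ F, f x ≤ S x} := by
    intro F f
    have : {S : Q → ℝ | ∀ x ∈ F, f x ≤ S x} = ⋂ x ∈ F, {S | f x ≤ S x} := by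
      ext S; simp
    rw [this]
    exact Finset.measurableSet_biInter _ (fun x _ => measurableSet_le measurable_const (mev x))
  have mge : ∀ (F : Finset Q) (f : Q → ℝ), MeasurableSet {S : Q → ℝ | ∀ x ∈ F, S x ≤ f x} := by
    intro F f
    have : {S : Q → ℝ | ∀ x ∈ F, S x ≤ f x} = ⋂ x ∈ F, {S | S x ≤ f x} := by
      ext S; simp
    rw [this]
    exact Finset.measurableSet_biInter _ (fun x _ => measurableSet_le (mev x) measurable_const)
  have mN : MeasurableSet {S : Q → ℝ | n - lam * σ ≤ ((B.filter (fun x => S x < 0)).card : ℝ)} :=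
    measurableSet_le measurable_const (measurable_cardFilter B (fun x (S : Q → ℝ) => S x < 0)
      (fun x => measurableSet_lt (mev x) measurable_const))
  have mE1 : MeasurableSet E1 :=
    (mle (FD ∪ FU) (fun x => p x - 3 * th * σ)).inter (mB.inter (mN.inter ((mCard _).inter
      (mle FR (fun _ => R4 * σ)))))
  have hE1 : 1 / 8 * a ≤ μ.real {S | pin z 0 S ∈ E1} := by
    have key := hμ.fft z (-c) 0 (by linarith) A1 A Set.univ E1 mA1 hAm MeasurableSet.univ mE1 (by
      intro S hS T hT hSz hTz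
      refine ⟨trivial, ?_⟩
      have hS' : (∀ x ∈ B, |S x + c| ≤ c1 * σ / 8) ∧
        Xc / 8 ≤ ((X.filter (fun x => p x + c1 * σ ≤ S x + c)).card : ℝ) := hS
      obtain ⟨hTB, hTF, hTL, hTR, hTn⟩ := hA T hT
      have hB : ∀ x ∈ B, (S ⊔ T) x = T x := by
        intro x hx
        have a1 := abs_le.1 (hS'.1 x hx)
        have a2 := abs_le.1 (hTB x hx)
        simp only [Pi.sup_apply]
        exact sup_eq_right.2 (by linarith [a1.2, a2.1])
      refine ⟨?_, ?_, ?_, ?_, ?_⟩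
      · intro x hx
        have a1 := abs_le.1 (hTF x (Finset.mem_union.1 hx))
        simp only [Pi.sup_apply]
        exact le_trans (by linarith [a1.1]) le_sup_right
      · intro x hx
        rw [hB x hx]
        exact hTB x hx
      · have : B.filter (fun x => (S ⊔ T) x < 0) = B.filter (fun x => T x < 0) := by
          apply Finset.filter_congr
          intro x hx
          rw [hB x hx]
        rw [this]
        linarith [(abs_le.1 hTn).1]
      · refine hS'.2.trans ?_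
        refine Nat.cast_le.2 (Finset.card_le_card ?_)
        intro x hx
        rw [Finset.mem_filter] at hx ⊢
        refine ⟨hx.1, ?_⟩
        simp only [Pi.sup_apply]
        exact le_trans (by linarith [hx.2]) le_sup_left
      · intro x hx
        simp only [Pi.sup_apply]
        exact le_trans (hTR x hx) le_sup_right)
    have h1 : {S : Q → ℝ | pin z (-c) S ∈ A1} = {S | pin z 0 S ∈ A'} := by
      ext S
      have : (fun x => pin z (-c) S x + c) = pin z 0 S := by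
        funext x; simp [pin]
      show (fun x => pin z (-c) S x + c) ∈ A' ↔ pin z 0 S ∈ A'
      rw [this]
    have h2 : {S : Q → ℝ | pin z (-c) S ∈ (Set.univ : Set (Q → ℝ))} = Set.univ := by
      ext S; simp
    rw [h1, h2, probReal_univ, one_mul] at key
    refine le_trans ?_ key
    exact mul_le_mul hA'prob hAa ha.le measureReal_nonneg
  -- second shift
  let A2 : Set (Q → ℝ) := {S | (fun x => S x - hh) ∈ A}
  have mA2 : MeasurableSet A2 :=
    (measurable_pi_lambda _ (fun x => (mev x).sub_const hh)) hAm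
  let E2 : Set (Q → ℝ) := {S | (∀ x ∈ FD ∪ FU, p x - 3 * th * σ ≤ S x) ∧
    (∀ x ∈ FD ∪ FU, S x ≤ p x + 3 * th * σ + h0 * σ) ∧
    (∀ x ∈ B, |S x| ≤ c1 * σ / 8) ∧ n - lam * σ ≤ ((B.filter (fun x => S x < 0)).card : ℝ) ∧
    Xc / 8 ≤ ((X.filter (fun x => p x + (h0 * σ - 3 * th * σ) ≤ S x)).card : ℝ) ∧
    (∀ x ∈ FR, R4 * σ ≤ S x) ∧ (∀ x ∈ FL, S x ≤ -(R4 * σ) + h0 * σ)}
  have mE2 : MeasurableSet E2 :=
    (mle (FD ∪ FU) (fun x => p x - 3 * th * σ)).inter
      ((mge (FD ∪ FU) (fun x => p x + 3 * th * σ + h0 * σ)).inter (mB.inter (mN.inter ((mCard _).inter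
      ((mle FR (fun _ => R4 * σ)).inter (mge FL (fun _ => -(R4 * σ) + h0 * σ)))))))
  have hE2 : a ^ 2 / 8 ≤ μ.real {S | pin z 0 S ∈ E2} := by
    have key := hμ.fft z 0 hh (by linarith) E1 A2 E2 Set.univ mE1 mA2 mE2 MeasurableSet.univ (by
      intro S hS T hT hSz hTz
      refine ⟨?_, trivial⟩
      obtain ⟨hS1, hS2, hS3, hS4, hS5⟩ := hS
      obtain ⟨hTB, hTF, hTL, hTR, hTn⟩ := hA _ hT
      refine ⟨?_, ?_, ?_, ?_, ?_, ?_, ?_⟩
      · intro x hx
        have a1 := abs_le.1 (hTF x (Finset.mem_union.1 hx))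
        simp only [Pi.inf_apply]
        exact le_inf (hS1 x hx) (by linarith [a1.1])
      · intro x hx
        have a1 := abs_le.1 (hTF x (Finset.mem_union.1 hx))
        simp only [Pi.inf_apply]
        exact inf_le_of_right_le (by linarith [a1.2])
      · intro x hx
        have a1 := abs_le.1 (hS2 x hx)
        have a2 := abs_le.1 (hTB x hx)
        simp only [Pi.inf_apply]
        rw [abs_le]
        exact ⟨le_inf a1.1 (by linarith [a2.1]), inf_le_of_left_le a1.2⟩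
      · refine hS3.trans ?_
        refine Nat.cast_le.2 (Finset.card_le_card ?_)
        intro x hx
        rw [Finset.mem_filter] at hx ⊢
        refine ⟨hx.1, ?_⟩
        simp only [Pi.inf_apply]
        exact inf_lt_of_left_lt hx.2
      · refine hS4.trans ?_
        refine Nat.cast_le.2 (Finset.card_le_card ?_)
        intro x hx
        rw [Finset.mem_filter] at hx ⊢
        refine ⟨hx.1, ?_⟩
        have a1 := abs_le.1 (hTF x (hXF x hx.1))
        simp only [Pi.inf_apply]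
        exact le_inf (by linarith [hx.2]) (by linarith [a1.1])
      · intro x hx
        simp only [Pi.inf_apply]
        exact le_inf (hS5 x hx) (by linarith [hTR x hx])
      · intro x hx
        simp only [Pi.inf_apply]
        exact inf_le_of_right_le (by linarith [hTL x hx]))
    have h1 : {S : Q → ℝ | pin z hh S ∈ A2} = {S | pin z 0 S ∈ A} := by
      ext S
      have : (fun x => pin z hh S x - hh) = pin z 0 S := by
        funext x; simp [pin]
      show (fun x => pin z hh S x - hh) ∈ A ↔ pin z 0 S ∈ A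
      rw [this]
    have h2 : {S : Q → ℝ | pin z hh S ∈ (Set.univ : Set (Q → ℝ))} = Set.univ := by
      ext S; simp
    rw [h1, h2, probReal_univ, mul_one] at key
    have h3 : 1 / 8 * a * a ≤ μ.real {S | pin z 0 S ∈ E1} * μ.real {S | pin z 0 S ∈ A} :=
      mul_le_mul hE1 hAa ha.le measureReal_nonneg
    nlinarith
  -- pick the two configurations
  obtain ⟨T0, hT0, hT0g⟩ := exists_of_measure μ _ _ (lt_of_lt_of_le hbad hE2)
  have hbad' : μ.real {S | ∃ v ∈ Gr, ¬ goodAt z (pin z 0 S) (v * σ) (lam * σ)} <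
      μ.real {S | pin z 0 S ∈ A} := by
    refine hbad.trans_le (le_trans ?_ hAa)
    nlinarith
  obtain ⟨S0, hS0, hS0g⟩ := exists_of_measure μ _ _ hbad'
  have hTg : ∀ v ∈ Gr, goodAt z (pin z 0 T0) (v * σ) (lam * σ) := by
    intro v hv
    by_contra hcon
    exact hT0g ⟨v, hv, hcon⟩
  have hSg : ∀ v ∈ Gr, goodAt z (pin z 0 S0) (v * σ) (lam * σ) := by
    intro v hv
    by_contra hcon
    exact hS0g ⟨v, hv, hcon⟩
  obtain ⟨hT1, hT2, hT3, hT4, hT5, hT6, hT7⟩ := hT0
  obtain ⟨hSB, hSF, hSL, hSR, hSn⟩ := hA _ hS0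
  have hlev : ∀ j : ℕ, j ≤ J → (j : ℝ) * (h0 / 2) ≤ R4 / 2 + 2 * h0 := by
    intro j hj
    have : (j : ℝ) ≤ R4 / h0 + 4 := le_trans (by exact_mod_cast hj) hJ
    calc (j : ℝ) * (h0 / 2) ≤ (R4 / h0 + 4) * (h0 / 2) := by gcongr
      _ = R4 / 2 + 2 * h0 := by
        field_simp; ring
  refine det_contra z (pin z 0 S0) (pin z 0 T0) σ c1 c5 h0 R4 lam th θ J hσ hc1 hh0 hlam hth e1 e2 e3 e4
    e5 hR4 hc1' hJ hJ' e6 B FD FU FL FR hcov p n (by simp [pin]) (by simp [pin]) hSB hT3 hSF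
    (fun x hx => ⟨hT1 x (Finset.mem_union.2 hx), hT2 x (Finset.mem_union.2 hx)⟩) hFD hFU hSL hT7 hSR hT6
    (by linarith [(abs_le.1 hSn).2]) hT4 ?_ ?_ ?_ ?_
    (X.filter (fun x => p x + (h0 * σ - 3 * th * σ) ≤ pin z 0 T0 x)) ?_
    (fun x hx => hXF x (Finset.mem_filter.1 hx).1) (fun x hx => hXp x (Finset.mem_filter.1 hx).1)
    (fun x hx => by linarith [(Finset.mem_filter.1 hx).2])
  · intro j hj1 hjJ
    have hj0 : (0 : ℝ) ≤ (j : ℝ) := Nat.cast_nonneg j
    have hv : (j : ℝ) * (h0 / 2) ∈ Gr := by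
      rw [hGr, Finset.mem_filter]
      refine ⟨?_, by positivity, by linarith [hlev j hjJ]⟩
      simp only [Finset.mem_union, Finset.mem_image, Finset.mem_range]
      exact Or.inl (Or.inl (Or.inl ⟨j, by omega, rfl⟩))
    exact ⟨hSg _ hv, hTg _ hv⟩
  · intro j hj1 hjJ
    have hj0 : (0 : ℝ) ≤ (j : ℝ) := Nat.cast_nonneg j
    have hv : (j : ℝ) * (h0 / 2) + 6 * th ∈ Gr := by
      rw [hGr, Finset.mem_filter]
      refine ⟨?_, by positivity, by linarith [hlev j hjJ]⟩
      simp only [Finset.mem_union, Finset.mem_image, Finset.mem_range]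
      exact Or.inl (Or.inl (Or.inr ⟨j, by omega, rfl⟩))
    have := hSg _ hv
    rwa [add_mul] at this
  · intro j hj1 hjJ hjc
    have hj0 : (1 : ℝ) ≤ (j : ℝ) := by exact_mod_cast hj1
    have hv : (j : ℝ) * (h0 / 2) - 6 * th ∈ Gr := by
      rw [hGr, Finset.mem_filter]
      refine ⟨?_, by nlinarith, by linarith [hlev j hjJ]⟩
      simp only [Finset.mem_union, Finset.mem_image, Finset.mem_range]
      exact Or.inl (Or.inr ⟨j, by omega, rfl⟩)
    have := hSg _ hv
    rwa [sub_mul] at this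
  · have hv : c1 / 2 ∈ Gr := by
      rw [hGr, Finset.mem_filter]
      refine ⟨?_, by positivity, by linarith⟩
      simp
    have := hSg _ hv
    have e : c1 / 2 * σ = c1 * σ / 2 := by ring
    rwa [e] at this
  · refine le_trans ?_ hT5
    rw [hXc]
    linarith

end KS
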