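import Pool.Agent.Lib.MP_c534e4_co.Nets
import Pool.Agent.Lib.MP_c534e4_co.FkgProduct
import Pool.Agent.Lib.MP_c534e4_co.Discretise

/-! (7.1)-(7.3) of the blueprint: the event `A*`. -/

set_option autoImplicit false

namespace KS

open MeasureTheory Set

theorem abs_inf_le {a b c : ℝ} (ha : |a| ≤ c) (hb : |b| ≤ c) : |a ⊓ b| ≤ c := by
  rw [abs_le] at *
  exact ⟨le_inf ha.1 hb.1, inf_le_of_left_le ha.2⟩

theorem abs_sup_le {a b c : ℝ} (ha : |a| ≤ c) (hb : |b| ≤ c) : |a ⊔ b| ≤ c := by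
  rw [abs_le] at *
  exact ⟨le_sup_of_le_left ha.1, sup_le ha.2 hb.2⟩

theorem abs_inf_sub_le {a a' b b' c : ℝ} (h : |a - b| ≤ c) (h' : |a' - b'| ≤ c) :
    |a ⊓ a' - b ⊓ b'| ≤ c :=
  (abs_min_sub_min_le_max _ _ _ _).trans (max_le h h')

theorem abs_sup_sub_le {a a' b b' c : ℝ} (h : |a - b| ≤ c) (h' : |a' - b'| ≤ c) :
    |a ⊔ a' - b ⊔ b'| ≤ c :=
  (abs_max_sub_max_le_max _ _ _ _).trans (max_le h h')

theorem measurable_forall {Q : Type} [Fintype Q] (P : Q → Prop) (E : Q → Set (Q → ℝ))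
    (hE : ∀ x, MeasurableSet (E x)) : MeasurableSet {S : Q → ℝ | ∀ x, P x → S ∈ E x} := by
  have : {S : Q → ℝ | ∀ x, P x → S ∈ E x} = ⋂ x, ⋂ (_ : P x), E x := by
    ext S; simp
  rw [this]
  exact MeasurableSet.iInter (fun x => MeasurableSet.iInter (fun _ => hE x))

open Classical in
theorem stage1' (ε C₄ C₇ c1 δ₁ θ R₄ lam th : ℝ) (hε : 0 < ε) (hε2 : ε ≤ 1 / 2) (h4 : 1 ≤ C₄)
    (h7 : 0 < C₇) (hc1 : 0 < c1) (hδ : 0 < δ₁) (hθ : 0 < θ) (hθ' : 64 * θ ≤ ε * δ₁) (hR4 : 0 < R₄)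
    (hlam : 0 < lam) (hth : 0 < th) (hth' : th ≤ θ) :
    ∃ R' a : ℝ, 0 < a ∧ C₇ ≤ R' ∧ ∀ {Q : Type} [Fintype Q] (μ : Measure (Q → ℝ)), IsKS μ →
    EpsBad μ ε → ∀ σ : ℝ, 1 ≤ σ → (∀ x y, V μ x y ≤ C₄ * (σ ^ 2 + σ * |M μ x y|)) → ∀ z : Q,
    μ.real {S | ∃ x, d μ x z ≤ δ₁ * σ ∧ c1 * σ / 8 < |D x z S|} ≤ ε / 32 →
    μ.real {S | ∃ x, |M μ x z| ≤ C₇ * σ ∧ R₄ * σ / 2 < |D x z S|} ≤ ε / 32 →
    ∃ (FD FU : Finset Q) (A : Set (Q → ℝ)) (p : Q → ℝ) (n n' : ℝ),
      (∀ x, (x ∈ FD ∨ x ∈ FU) ↔ (δ₁ * σ < d μ x z ∧ |M μ x z| ≤ R' * σ)) ∧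
      MeasurableSet A ∧ a ≤ μ.real {S | pin z 0 S ∈ A} ∧
      (∀ S ∈ A, (∀ x, d μ x z ≤ δ₁ * σ → |S x| ≤ c1 * σ / 8) ∧
        (∀ x, x ∈ FD ∨ x ∈ FU → |S x - p x| ≤ 3 * th * σ) ∧
        (∀ x, M μ x z < -(R' * σ) → S x ≤ -(R₄ * σ)) ∧
        (∀ x, R' * σ < M μ x z → R₄ * σ ≤ S x) ∧
        |((Finset.univ.filter (fun x : Q => d μ x z ≤ δ₁ * σ ∧ S x < 0)).card : ℝ) - n| ≤ lam * σ ∧
        |((Finset.univ.filter (fun x : Q => d μ x z ≤ δ₁ * σ ∧ 0 < S x)).card : ℝ) - n'| ≤ lam * σ) ∧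
      (∀ x ∈ FD, p x ≤ -(θ * σ)) ∧ (∀ x ∈ FU, θ * σ ≤ p x) ∧
      (∀ x, (x ∈ FD ∨ x ∈ FU) → |M μ x z| ≤ C₇ * σ → |p x| ≤ R₄ * σ / 2) := by
  obtain ⟨R0, hR0, hfar⟩ := far ε C₄ R₄ (ε / 32) hε (by positivity)
  obtain ⟨R', hR'1, hR'2⟩ : ∃ R' : ℝ, R0 ≤ R' ∧ C₇ ≤ R' := ⟨max R0 C₇, le_max_left _ _, le_max_right _ _⟩
  have hR'0 : 0 < R' := by linarith
  obtain ⟨r', hr', hr'2⟩ : ∃ r' : ℝ, 0 < r' ∧ R' + Real.sqrt (C₄ * (1 + R')) = r' :=
    ⟨_, by positivity, rfl⟩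
  obtain ⟨k, hnets⟩ := nets ε (th / r') (ε / 32) hε (by positivity) (by positivity)
  obtain ⟨C, c, hC, hc, hchain⟩ := chaining ε hε
  obtain ⟨R5, hR5, hR5m⟩ : ∃ R5 : ℝ, 0 < R5 ∧ C * Real.exp (-(c * R5 / r')) ≤ ε / 32 := by
    refine ⟨r' / c * max 1 (Real.log (C / (ε / 32))), by positivity, ?_⟩
    have h1 : Real.log (C / (ε / 32)) ≤ c * (r' / c * max 1 (Real.log (C / (ε / 32)))) / r' := by
      have : c * (r' / c * max 1 (Real.log (C / (ε / 32)))) / r' = max 1 (Real.log (C / (ε / 32))) := by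
        field_simp
      rw [this]
      exact le_max_right _ _
    have h2 : C / (ε / 32) ≤ Real.exp (c * (r' / c * max 1 (Real.log (C / (ε / 32)))) / r') := by
      rw [← Real.exp_log (show 0 < C / (ε / 32) by positivity)]
      exact Real.exp_le_exp.2 (by rw [Real.exp_log (show 0 < C / (ε / 32) by positivity)]; exact h1)
    rw [Real.exp_neg, ← div_eq_mul_inv, div_le_iff₀ (Real.exp_pos _)]
    rw [div_le_iff₀ (by positivity)] at h2
    linarith
  -- discretisation parameters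
  set r : ℝ := min th lam with hr
  have hr0 : 0 < r := lt_min hth hlam
  set Rb : ℝ := max R5 (20 * (δ₁ + 1)) with hRb
  have hRb0 : 0 < Rb := lt_max_of_lt_left hR5
  set N : ℕ := ⌈2 * Rb / r + 1⌉₊ with hN
  have hN1 : (1 : ℝ) ≤ (N : ℝ) := by
    refine le_trans ?_ (Nat.le_ceil _)
    have : 0 ≤ 2 * Rb / r := by positivity
    linarith
  refine ⟨R', (ε / 2) ^ ((k + 1) * (k + 1)) / (N : ℝ) ^ (2 * k + 2), by positivity, hR'2, ?_⟩
  intro Q _ μ hμ hbad σ hσ hV z hsB hs7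
  have hprob := hμ.prob
  have hσ0 : 0 < σ := by linarith
  have mev : ∀ x : Q, Measurable (fun S : Q → ℝ => S x) := fun x => measurable_pi_apply x
  have hpin0 : ∀ (S : Q → ℝ) (x : Q), pin z 0 S x = D x z S := by
    intro S x; simp [pin, D]
  set FD : Finset Q := Finset.univ.filter (fun x => (δ₁ * σ < d μ x z ∧ |M μ x z| ≤ R' * σ) ∧
    1 / 2 + ε ≤ μ.real {S | S x < S z}) with hFD
  set FU : Finset Q := Finset.univ.filter (fun x => (δ₁ * σ < d μ x z ∧ |M μ x z| ≤ R' * σ) ∧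
    ¬ (1 / 2 + ε ≤ μ.real {S | S x < S z})) with hFU
  have hF : ∀ x, (x ∈ FD ∨ x ∈ FU) ↔ (δ₁ * σ < d μ x z ∧ |M μ x z| ≤ R' * σ) := by
    intro x
    rw [hFD, hFU, Finset.mem_filter, Finset.mem_filter]
    constructor
    · rintro (h | h) <;> exact h.2.1
    · intro h
      by_cases h1 : 1 / 2 + ε ≤ μ.real {S | S x < S z}
      · exact Or.inl ⟨Finset.mem_univ _, h, h1⟩
      · exact Or.inr ⟨Finset.mem_univ _, h, h1⟩
  have hdr : ∀ x, |M μ x z| ≤ R' * σ → d μ x z ≤ r' * σ := by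
    intro x hx
    refine (hμ.d_le x z).trans ?_
    have h1 : Real.sqrt (V μ x z) ≤ Real.sqrt (C₄ * (1 + R')) * σ := by
      rw [Real.sqrt_le_left (by positivity), mul_pow, Real.sq_sqrt (by positivity)]
      refine (hV x z).trans ?_
      have : σ * |M μ x z| ≤ σ * (R' * σ) := by gcongr
      nlinarith
    rw [← hr'2, add_mul]
    exact add_le_add hx h1
  obtain ⟨RD, hRDs, hRDk, πD, hπD, hPD⟩ := hnets μ hμ hbad z (r' * σ) (by positivity) FD
    (fun x hx => hdr x (((hF x).1 (Or.inl hx)).2))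
  obtain ⟨RU, hRUs, hRUk, πU, hπU, hPU⟩ := hnets μ hμ hbad z (r' * σ) (by positivity) FU
    (fun x hx => hdr x (((hF x).1 (Or.inr hx)).2))
  have hthr : th / r' * (r' * σ) = th * σ := by field_simp
  rw [hthr] at hPD hPU
  have hP5 : μ.real {S | ∃ x, d μ x z ≤ r' * σ ∧ R5 * σ < |D x z S|} ≤ ε / 32 := by
    refine (hchain μ hμ hbad z (r' * σ) (R5 * σ) (by positivity) (by positivity)).trans ?_
    have : c * (R5 * σ) / (r' * σ) = c * R5 / r' := by field_simp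
    rw [this]
    exact hR5m
  have hPf := hfar μ hμ hbad σ hσ hV z
  -- the lattice event
  let K1 : Set (Q → ℝ) := {S | ∀ x, d μ x z ≤ δ₁ * σ → S ∈ {S : Q → ℝ | |S x| ≤ c1 * σ / 8}}
  let K2 : Set (Q → ℝ) := {S | ∀ x, x ∈ FD → S ∈ {S : Q → ℝ | |S x - S (πD x)| ≤ th * σ}}
  let K3 : Set (Q → ℝ) := {S | ∀ x, x ∈ FU → S ∈ {S : Q → ℝ | |S x - S (πU x)| ≤ th * σ}}
  let K4 : Set (Q → ℝ) := {S | ∀ x, |M μ x z| ≤ R' * σ → S ∈ {S : Q → ℝ | |S x| ≤ R5 * σ}}
  let K5 : Set (Q → ℝ) := {S | ∀ x, |M μ x z| ≤ C₇ * σ → S ∈ {S : Q → ℝ | |S x| ≤ R₄ * σ / 2}}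
  let K6 : Set (Q → ℝ) := {S | ∀ x, M μ x z < -(R' * σ) → S ∈ {S : Q → ℝ | S x ≤ -(R₄ * σ)}}
  let K7 : Set (Q → ℝ) := {S | ∀ x, R' * σ < M μ x z → S ∈ {S : Q → ℝ | R₄ * σ ≤ S x}}
  have mK1 : MeasurableSet K1 := measurable_forall _ _ (fun x => measurableSet_le (mev x).abs measurable_const)
  have mK2 : MeasurableSet K2 := measurable_forall _ _ (fun x =>
    measurableSet_le ((mev x).sub (mev _)).abs measurable_const)
  have mK3 : MeasurableSet K3 := measurable_forall _ _ (fun x =>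
    measurableSet_le ((mev x).sub (mev _)).abs measurable_const)
  have mK4 : MeasurableSet K4 := measurable_forall _ _ (fun x => measurableSet_le (mev x).abs measurable_const)
  have mK5 : MeasurableSet K5 := measurable_forall _ _ (fun x => measurableSet_le (mev x).abs measurable_const)
  have mK6 : MeasurableSet K6 := measurable_forall _ _ (fun x => measurableSet_le (mev x) measurable_const)
  have mK7 : MeasurableSet K7 := measurable_forall _ _ (fun x => measurableSet_le measurable_const (mev x))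
  let Kset : Set (Q → ℝ) := K1 ∩ (K2 ∩ (K3 ∩ (K4 ∩ (K5 ∩ (K6 ∩ K7)))))
  have mK : MeasurableSet Kset :=
    mK1.inter (mK2.inter (mK3.inter (mK4.inter (mK5.inter (mK6.inter mK7)))))
  have hinf : ∀ S ∈ Kset, ∀ T ∈ Kset, S ⊓ T ∈ Kset := by
    rintro S ⟨a1, a2, a3, a4, a5, a6, a7⟩ T ⟨b1, b2, b3, b4, b5, b6, b7⟩
    refine ⟨fun x hx => abs_inf_le (a1 x hx) (b1 x hx), fun x hx => ?_, fun x hx => ?_,
      fun x hx => abs_inf_le (a4 x hx) (b4 x hx), fun x hx => abs_inf_le (a5 x hx) (b5 x hx),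
      fun x hx => (inf_le_of_left_le (a6 x hx) : S x ⊓ T x ≤ -(R₄ * σ)),
      fun x hx => (le_inf (a7 x hx) (b7 x hx) : R₄ * σ ≤ S x ⊓ T x)⟩
    · exact abs_inf_sub_le (a2 x hx) (b2 x hx)
    · exact abs_inf_sub_le (a3 x hx) (b3 x hx)
  have hsup : ∀ S ∈ Kset, ∀ T ∈ Kset, S ⊔ T ∈ Kset := by
    rintro S ⟨a1, a2, a3, a4, a5, a6, a7⟩ T ⟨b1, b2, b3, b4, b5, b6, b7⟩
    refine ⟨fun x hx => abs_sup_le (a1 x hx) (b1 x hx), fun x hx => ?_, fun x hx => ?_,
      fun x hx => abs_sup_le (a4 x hx) (b4 x hx), fun x hx => abs_sup_le (a5 x hx) (b5 x hx),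
      fun x hx => (sup_le (a6 x hx) (b6 x hx) : S x ⊔ T x ≤ -(R₄ * σ)),
      fun x hx => (le_sup_of_le_left (a7 x hx) : R₄ * σ ≤ S x ⊔ T x)⟩
    · exact abs_sup_sub_le (a2 x hx) (b2 x hx)
    · exact abs_sup_sub_le (a3 x hx) (b3 x hx)
  have hKbad : μ.real {S | pin z 0 S ∉ Kset} ≤ 6 * (ε / 32) := by
    have hsub : {S : Q → ℝ | pin z 0 S ∉ Kset} ⊆
        {S | ∃ x, d μ x z ≤ δ₁ * σ ∧ c1 * σ / 8 < |D x z S|} ∪
        ({S | ∃ x ∈ FD, th * σ < |D x (πD x) S|} ∪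
        ({S | ∃ x ∈ FU, th * σ < |D x (πU x) S|} ∪
        ({S | ∃ x, d μ x z ≤ r' * σ ∧ R5 * σ < |D x z S|} ∪
        ({S | ∃ x, |M μ x z| ≤ C₇ * σ ∧ R₄ * σ / 2 < |D x z S|} ∪
        {S | ∃ x, (M μ x z < -(R0 * σ) ∧ -(R₄ * σ) < D x z S) ∨
          (R0 * σ < M μ x z ∧ D x z S < R₄ * σ)})))) := by
      intro S hS
      by_contra hcon
      simp only [mem_union, not_or] at hcon
      obtain ⟨g1, g2, g3, g4, g5, g6⟩ := hcon
      apply hS
      have hR0R : R0 * σ ≤ R' * σ := by gcongr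
      refine ⟨fun x hx => ?_, fun x hx => ?_, fun x hx => ?_, fun x hx => ?_, fun x hx => ?_,
        fun x hx => ?_, fun x hx => ?_⟩
      · by_contra hc'
        exact g1 ⟨x, hx, by rw [← hpin0]; exact not_le.1 hc'⟩
      · by_contra hc'
        refine g2 ⟨x, hx, ?_⟩
        have e : D x (πD x) S = pin z 0 S x - pin z 0 S (πD x) := by simp [D, pin]
        rw [e]; exact not_le.1 hc'
      · by_contra hc'
        refine g3 ⟨x, hx, ?_⟩
        have e : D x (πU x) S = pin z 0 S x - pin z 0 S (πU x) := by simp [D, pin]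
        rw [e]; exact not_le.1 hc'
      · by_contra hc'
        exact g4 ⟨x, hdr x hx, by rw [← hpin0]; exact not_le.1 hc'⟩
      · by_contra hc'
        exact g5 ⟨x, hx, by rw [← hpin0]; exact not_le.1 hc'⟩
      · by_contra hc'
        exact g6 ⟨x, Or.inl ⟨by linarith, by rw [← hpin0]; exact not_le.1 hc'⟩⟩
      · by_contra hc'
        exact g6 ⟨x, Or.inr ⟨by linarith, by rw [← hpin0]; exact not_le.1 hc'⟩⟩
    refine (measureReal_mono hsub).trans ?_
    refine (measureReal_union_le _ _).trans ?_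
    have u2 := measureReal_union_le (μ := μ) {S | ∃ x ∈ FD, th * σ < |D x (πD x) S|}
        ({S | ∃ x ∈ FU, th * σ < |D x (πU x) S|} ∪
        ({S | ∃ x, d μ x z ≤ r' * σ ∧ R5 * σ < |D x z S|} ∪
        ({S | ∃ x, |M μ x z| ≤ C₇ * σ ∧ R₄ * σ / 2 < |D x z S|} ∪
        {S | ∃ x, (M μ x z < -(R0 * σ) ∧ -(R₄ * σ) < D x z S) ∨
          (R0 * σ < M μ x z ∧ D x z S < R₄ * σ)})))
    have u3 := measureReal_union_le (μ := μ) {S | ∃ x ∈ FU, th * σ < |D x (πU x) S|}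
        ({S | ∃ x, d μ x z ≤ r' * σ ∧ R5 * σ < |D x z S|} ∪
        ({S | ∃ x, |M μ x z| ≤ C₇ * σ ∧ R₄ * σ / 2 < |D x z S|} ∪
        {S | ∃ x, (M μ x z < -(R0 * σ) ∧ -(R₄ * σ) < D x z S) ∨
          (R0 * σ < M μ x z ∧ D x z S < R₄ * σ)}))
    have u4 := measureReal_union_le (μ := μ) {S | ∃ x, d μ x z ≤ r' * σ ∧ R5 * σ < |D x z S|}
        ({S | ∃ x, |M μ x z| ≤ C₇ * σ ∧ R₄ * σ / 2 < |D x z S|} ∪
        {S | ∃ x, (M μ x z < -(R0 * σ) ∧ -(R₄ * σ) < D x z S) ∨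
          (R0 * σ < M μ x z ∧ D x z S < R₄ * σ)})
    have u5 := measureReal_union_le (μ := μ) {S | ∃ x, |M μ x z| ≤ C₇ * σ ∧ R₄ * σ / 2 < |D x z S|}
        {S | ∃ x, (M μ x z < -(R0 * σ) ∧ -(R₄ * σ) < D x z S) ∨
          (R0 * σ < M μ x z ∧ D x z S < R₄ * σ)}
    linarith
  -- the events D_i, U_j
  set t : ℝ := 2 * θ * σ with ht
  have hsmall : ∀ x, δ₁ * σ < d μ x z → μ.real {S | |D x z S| ≤ t} ≤ ε / 2 := by
    intro x hx
    have hd0 : 0 < d μ x z := lt_trans (by positivity) hx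
    have hxz : x ≠ z := by
      rintro rfl
      rw [d_self] at hd0
      exact lt_irrefl _ hd0
    have h1 := hμ.small0 x z hxz (t / d μ x z) (by positivity)
    rw [div_mul_cancel₀ _ hd0.ne'] at h1
    refine h1.trans ?_
    have h2 : t / d μ x z ≤ t / (δ₁ * σ) := by gcongr
    have h3 : t / (δ₁ * σ) = 2 * θ / δ₁ := by rw [ht]; field_simp
    have h5 : 2 * θ / δ₁ ≤ ε / 32 := by
      rw [div_le_iff₀ hδ]
      linarith
    linarith
  have hDn : ∀ x ∈ FD, 1 / 2 + ε / 2 ≤ μ.real {S | pin z 0 S x ≤ -t} := by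
    intro x hx
    have h1 := (Finset.mem_filter.1 hx).2
    have hsub : {S : Q → ℝ | S x < S z} ⊆ {S | pin z 0 S x ≤ -t} ∪ {S | |D x z S| ≤ t} := by
      intro S hS
      have hS' : S x < S z := hS
      by_cases hc' : pin z 0 S x ≤ -t
      · exact Or.inl hc'
      · right
        rw [hpin0] at hc'
        push Not at hc'
        show |D x z S| ≤ t
        rw [abs_le]
        refine ⟨hc'.le, ?_⟩
        have : D x z S < 0 := by simp only [D]; linarith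
        have : 0 < t := by positivity
        linarith
    have h2 := (measureReal_mono (μ := μ) hsub).trans (measureReal_union_le _ _)
    have h3 := hsmall x h1.1.1
    linarith [h1.2]
  have hUp : ∀ x ∈ FU, 1 / 2 + ε / 2 ≤ μ.real {S | t ≤ pin z 0 S x} := by
    intro x hx
    have h1 := (Finset.mem_filter.1 hx).2
    have hd0 : 0 < d μ x z := lt_trans (by positivity) h1.1.1
    have hxz : x ≠ z := by
      rintro rfl
      rw [d_self] at hd0
      exact lt_irrefl _ hd0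
    have h4 : 1 / 2 + ε ≤ μ.real {S | S z < S x} := by
      rcases hbad x z hxz with h | h
      · exact absurd h h1.2
      · exact h
    have hsub : {S : Q → ℝ | S z < S x} ⊆ {S | t ≤ pin z 0 S x} ∪ {S | |D x z S| ≤ t} := by
      intro S hS
      have hS' : S z < S x := hS
      by_cases hc' : t ≤ pin z 0 S x
      · exact Or.inl hc'
      · right
        rw [hpin0] at hc'
        push Not at hc'
        show |D x z S| ≤ t
        rw [abs_le]
        refine ⟨?_, hc'.le⟩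
        have : 0 < D x z S := by simp only [D]; linarith
        have : 0 < t := by positivity
        linarith
    have h2 := (measureReal_mono (μ := μ) hsub).trans (measureReal_union_le _ _)
    have h3 := hsmall x h1.1.1
    linarith
  -- intersections
  have mpin : Measurable (pin z 0 : (Q → ℝ) → (Q → ℝ)) := measurable_pin z 0
  have minter : ∀ E F : Set (Q → ℝ), μ.real E ≤ μ.real (E ∩ F) + μ.real Fᶜ := by
    intro E F
    refine (measureReal_mono ?_).trans (measureReal_union_le _ _)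
    intro S hS
    by_cases h : S ∈ F
    · exact Or.inl ⟨hS, h⟩
    · exact Or.inr h
  have mDset : ∀ i, MeasurableSet {S : Q → ℝ | pin z 0 S i ≤ -t} := fun i =>
    measurableSet_le ((measurable_pi_apply i).comp mpin) measurable_const
  have mUset : ∀ i, MeasurableSet {S : Q → ℝ | t ≤ pin z 0 S i} := fun i =>
    measurableSet_le measurable_const ((measurable_pi_apply i).comp mpin)
  have hK0 : ε / 2 ≤ μ.real {S | pin z 0 S ∈ Kset} := by
    have h1 := minter Set.univ {S | pin z 0 S ∈ Kset}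
    rw [probReal_univ, Set.univ_inter] at h1
    have h2 : μ.real ({S | pin z 0 S ∈ Kset}ᶜ) ≤ 6 * (ε / 32) := hKbad
    linarith
  have hKi : ∀ i ∈ RD, ε / 2 ≤ μ.real {S | pin z 0 S ∈ Kset ∧ pin z 0 S i ≤ -t} := by
    intro i hi
    have h1 := minter {S | pin z 0 S i ≤ -t} {S | pin z 0 S ∈ Kset}
    have h2 : μ.real ({S | pin z 0 S ∈ Kset}ᶜ) ≤ 6 * (ε / 32) := hKbad
    have h3 := hDn i (hRDs hi)
    have h4 : {S : Q → ℝ | pin z 0 S i ≤ -t} ∩ {S | pin z 0 S ∈ Kset} =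
        {S | pin z 0 S ∈ Kset ∧ pin z 0 S i ≤ -t} := by
      ext S; exact and_comm
    rw [h4] at h1
    linarith
  have hKj : ∀ j ∈ RU, ε / 2 ≤ μ.real {S | pin z 0 S ∈ Kset ∧ t ≤ pin z 0 S j} := by
    intro j hj
    have h1 := minter {S | t ≤ pin z 0 S j} {S | pin z 0 S ∈ Kset}
    have h2 : μ.real ({S | pin z 0 S ∈ Kset}ᶜ) ≤ 6 * (ε / 32) := hKbad
    have h3 := hUp j (hRUs hj)
    have h4 : {S : Q → ℝ | t ≤ pin z 0 S j} ∩ {S | pin z 0 S ∈ Kset} =
        {S | pin z 0 S ∈ Kset ∧ t ≤ pin z 0 S j} := by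
      ext S; exact and_comm
    rw [h4] at h1
    linarith
  have hKij : ∀ i ∈ RD, ∀ j ∈ RU,
      ε / 2 ≤ μ.real {S | pin z 0 S ∈ Kset ∧ pin z 0 S i ≤ -t ∧ t ≤ pin z 0 S j} := by
    intro i hi j hj
    have h1 := minter ({S | pin z 0 S i ≤ -t} ∩ {S | t ≤ pin z 0 S j}) {S | pin z 0 S ∈ Kset}
    have h1' := minter {S | pin z 0 S i ≤ -t} {S | t ≤ pin z 0 S j}
    have h2 : μ.real ({S | pin z 0 S ∈ Kset}ᶜ) ≤ 6 * (ε / 32) := hKbad
    have h3 := hDn i (hRDs hi)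
    have h3' := hUp j (hRUs hj)
    have h5 : μ.real ({S : Q → ℝ | t ≤ pin z 0 S j}ᶜ) = 1 - μ.real {S | t ≤ pin z 0 S j} :=
      probReal_compl_eq_one_sub (mUset j)
    have h4 : ({S : Q → ℝ | pin z 0 S i ≤ -t} ∩ {S | t ≤ pin z 0 S j}) ∩ {S | pin z 0 S ∈ Kset} =
        {S | pin z 0 S ∈ Kset ∧ pin z 0 S i ≤ -t ∧ t ≤ pin z 0 S j} := by
      ext S
      constructor
      · rintro ⟨⟨a1, a2⟩, a3⟩
        exact ⟨a3, a1, a2⟩
      · rintro ⟨a1, a2, a3⟩
        exact ⟨⟨a2, a3⟩, a1⟩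
    rw [h4] at h1
    linarith
  have hprod := fkg_product hμ z Kset mK hinf hsup RD RU t (ε / 2) (by positivity) (by linarith)
    hKij hKi hKj hK0
  -- discretise
  let E0 : Set (Q → ℝ) := {S | S ∈ Kset ∧ (∀ i ∈ RD, S i ≤ -t) ∧ (∀ j ∈ RU, t ≤ S j)}
  have mE0 : MeasurableSet E0 := by
    refine mK.inter (MeasurableSet.inter ?_ ?_)
    · exact measurable_forall (fun i => i ∈ RD) (fun i => {S | S i ≤ -t})
        (fun i => measurableSet_le (mev i) measurable_const)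
    · exact measurable_forall (fun i => i ∈ RU) (fun i => {S | t ≤ S i})
        (fun i => measurableSet_le measurable_const (mev i))
  have hnu : IsProbabilityMeasure (μ.map (pin z 0)) := Measure.isProbabilityMeasure_map mpin.aemeasurable
  let cn : (Q → ℝ) → ℝ := fun S => ((Finset.univ.filter (fun x : Q => d μ x z ≤ δ₁ * σ ∧ S x < 0)).card : ℝ)
  let cp : (Q → ℝ) → ℝ := fun S => ((Finset.univ.filter (fun x : Q => d μ x z ≤ δ₁ * σ ∧ 0 < S x)).card : ℝ)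
  let f : ({x // x ∈ RD} ⊕ {x // x ∈ RU}) ⊕ Bool → (Q → ℝ) → ℝ := fun i S =>
    match i with
    | Sum.inl (Sum.inl x) => S x.1 / σ
    | Sum.inl (Sum.inr x) => S x.1 / σ
    | Sum.inr true => cn S / σ
    | Sum.inr false => cp S / σ
  have mcount : ∀ P : Q → (Q → ℝ) → Prop, (∀ x, MeasurableSet {S | P x S}) →
      Measurable (fun S => ((Finset.univ.filter (fun x => P x S)).card : ℝ)) := by
    intro P hP
    have : (fun S => ((Finset.univ.filter (fun x => P x S)).card : ℝ)) =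
        fun S => ∑ x, if P x S then (1 : ℝ) else 0 := by
      funext S
      rw [Finset.card_filter]
      push_cast
      rfl
    rw [this]
    exact Finset.measurable_sum _ (fun x _ => Measurable.ite (hP x) measurable_const measurable_const)
  have mcp : Measurable cp := by
    have h := mcount (fun x S => d μ x z ≤ δ₁ * σ ∧ 0 < S x) (fun x =>
      MeasurableSet.inter (MeasurableSet.const _) (measurableSet_lt measurable_const (mev x)))
    convert h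
  have mcn : Measurable cn := by
    have h := mcount (fun x S => d μ x z ≤ δ₁ * σ ∧ S x < 0) (fun x =>
      MeasurableSet.inter (MeasurableSet.const _) (measurableSet_lt (mev x) measurable_const))
    convert h
  have mf : ∀ i, Measurable (f i) := by
    rintro ((x | x) | (_ | _))
    · exact (mev _).div_const _
    · exact (mev _).div_const _
    · exact mcp.div_const _
    · exact mcn.div_const _
  have hcardB : ∀ P : Q → Prop, ((Finset.univ.filter (fun x : Q => d μ x z ≤ δ₁ * σ ∧ P x)).card : ℝ) ≤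
      20 * (δ₁ + 1) * σ := by
    intro P
    have h1 : (Finset.univ.filter (fun x : Q => d μ x z ≤ δ₁ * σ ∧ P x)) ⊆
        (Finset.univ.filter (fun x : Q => d μ x z ≤ δ₁ * σ)) := by
      intro x hx
      simp only [Finset.mem_filter, Finset.mem_univ, true_and] at hx ⊢
      exact hx.1
    have h2 : ((Finset.univ.filter (fun x : Q => d μ x z ≤ δ₁ * σ ∧ P x)).card : ℝ) ≤
        ((Finset.univ.filter (fun x : Q => d μ x z ≤ δ₁ * σ)).card : ℝ) := by
      exact_mod_cast Finset.card_le_card h1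
    refine h2.trans ((hμ.card_le z (δ₁ * σ) (by positivity)).trans ?_)
    nlinarith
  have hfb : ∀ S ∈ E0, ∀ i, |f i S| ≤ Rb := by
    rintro S ⟨⟨a1, a2, a3, a4, a5, a6, a7⟩, hSD, hSU⟩
    rintro ((x | x) | (_ | _))
    · have h1 : |S x.1| ≤ R5 * σ := a4 x.1 (((hF x.1).1 (Or.inl (hRDs x.2))).2)
      show |S x.1 / σ| ≤ Rb
      rw [abs_div, abs_of_pos hσ0, div_le_iff₀ hσ0]
      exact h1.trans (mul_le_mul_of_nonneg_right (le_max_left _ _) hσ0.le)
    · have h1 : |S x.1| ≤ R5 * σ := a4 x.1 (((hF x.1).1 (Or.inr (hRUs x.2))).2)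
      show |S x.1 / σ| ≤ Rb
      rw [abs_div, abs_of_pos hσ0, div_le_iff₀ hσ0]
      exact h1.trans (mul_le_mul_of_nonneg_right (le_max_left _ _) hσ0.le)
    · show |cp S / σ| ≤ Rb
      rw [abs_div, abs_of_pos hσ0, div_le_iff₀ hσ0, abs_of_nonneg (Nat.cast_nonneg _)]
      exact (hcardB _).trans (mul_le_mul_of_nonneg_right (le_max_right _ _) hσ0.le)
    · show |cn S / σ| ≤ Rb
      rw [abs_div, abs_of_pos hσ0, div_le_iff₀ hσ0, abs_of_nonneg (Nat.cast_nonneg _)]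
      exact (hcardB _).trans (mul_le_mul_of_nonneg_right (le_max_right _ _) hσ0.le)
  obtain ⟨A, hAE, mA, hAp, hAr⟩ := discretise (μ.map (pin z 0)) f mf r Rb hr0 hRb0.le N (Nat.le_ceil _)
    E0 mE0 hfb
  rw [map_measureReal_apply mpin mE0, map_measureReal_apply mpin mA] at hAp
  have hcardι : Fintype.card (({x // x ∈ RD} ⊕ {x // x ∈ RU}) ⊕ Bool) ≤ 2 * k + 2 := by
    simp only [Fintype.card_sum, Fintype.card_coe, Fintype.card_bool]
    omega
  have hA1 : (ε / 2) ^ ((k + 1) * (k + 1)) / (N : ℝ) ^ (2 * k + 2) ≤ μ.real {S | pin z 0 S ∈ A} := by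
    refine le_trans ?_ hAp
    have e1 : (ε / 2) ^ ((k + 1) * (k + 1)) ≤ μ.real (pin z 0 ⁻¹' E0) := by
      refine le_trans ?_ hprod
      apply pow_le_pow_of_le_one (by positivity) (by linarith)
      exact Nat.mul_le_mul (by omega) (by omega)
    have e2 : (N : ℝ) ^ (Fintype.card (({x // x ∈ RD} ⊕ {x // x ∈ RU}) ⊕ Bool)) ≤ (N : ℝ) ^ (2 * k + 2) :=
      pow_le_pow_right₀ hN1 hcardι
    gcongr
  have hA0 : 0 < μ.real {S | pin z 0 S ∈ A} := lt_of_lt_of_le (by positivity) hA1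
  obtain ⟨p, hpA⟩ : A.Nonempty := by
    by_contra hne
    rw [Set.not_nonempty_iff_eq_empty] at hne
    rw [hne] at hA0
    simp at hA0
  have hrD : ∀ S ∈ A, ∀ x ∈ RD, |S x - p x| ≤ th * σ := by
    intro S hS x hx
    have h1 : |S x / σ - p x / σ| ≤ r := hAr S hS p hpA (Sum.inl (Sum.inl ⟨x, hx⟩))
    rw [← sub_div, abs_div, abs_of_pos hσ0, div_le_iff₀ hσ0] at h1
    exact h1.trans (mul_le_mul_of_nonneg_right (min_le_left _ _) hσ0.le)
  have hrU : ∀ S ∈ A, ∀ x ∈ RU, |S x - p x| ≤ th * σ := by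
    intro S hS x hx
    have h1 : |S x / σ - p x / σ| ≤ r := hAr S hS p hpA (Sum.inl (Sum.inr ⟨x, hx⟩))
    rw [← sub_div, abs_div, abs_of_pos hσ0, div_le_iff₀ hσ0] at h1
    exact h1.trans (mul_le_mul_of_nonneg_right (min_le_left _ _) hσ0.le)
  obtain ⟨⟨p1, p2, p3, p4, p5, p6, p7⟩, hpD, hpU⟩ := hAE hpA
  refine ⟨FD, FU, A, p, cn p, cp p, hF, mA, hA1, ?_, ?_, ?_, ?_⟩
  · intro S hS
    obtain ⟨⟨a1, a2, a3, a4, a5, a6, a7⟩, hSD, hSU⟩ := hAE hS
    refine ⟨a1, ?_, a6, a7, ?_, ?_⟩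
    · rintro x (hx | hx)
      · have g1 : |S x - S (πD x)| ≤ th * σ := a2 x hx
        have g2 : |p x - p (πD x)| ≤ th * σ := p2 x hx
        have g3 := hrD S hS _ (hπD x hx)
        rw [abs_le] at *
        constructor <;> linarith [g1.1, g1.2, g2.1, g2.2, g3.1, g3.2]
      · have g1 : |S x - S (πU x)| ≤ th * σ := a3 x hx
        have g2 : |p x - p (πU x)| ≤ th * σ := p3 x hx
        have g3 := hrU S hS _ (hπU x hx)
        rw [abs_le] at *
        constructor <;> linarith [g1.1, g1.2, g2.1, g2.2, g3.1, g3.2]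
    · have h1 : |cn S / σ - cn p / σ| ≤ r := hAr S hS p hpA (Sum.inr true)
      rw [← sub_div, abs_div, abs_of_pos hσ0, div_le_iff₀ hσ0] at h1
      exact h1.trans (mul_le_mul_of_nonneg_right (min_le_right _ _) hσ0.le)
    · have h1 : |cp S / σ - cp p / σ| ≤ r := hAr S hS p hpA (Sum.inr false)
      rw [← sub_div, abs_div, abs_of_pos hσ0, div_le_iff₀ hσ0] at h1
      exact h1.trans (mul_le_mul_of_nonneg_right (min_le_right _ _) hσ0.le)
  · intro x hx
    have g2 : |p x - p (πD x)| ≤ th * σ := p2 x hx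
    have g3 := hpD _ (hπD x hx)
    have g4 : th * σ ≤ θ * σ := by gcongr
    have := (abs_le.1 g2).2
    rw [ht] at g3
    linarith
  · intro x hx
    have g2 : |p x - p (πU x)| ≤ th * σ := p3 x hx
    have g3 := hpU _ (hπU x hx)
    have g4 : th * σ ≤ θ * σ := by gcongr
    have := (abs_le.1 g2).1
    rw [ht] at g3
    linarith
  · intro x _ hx
    exact p5 x hx

end KS
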